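import Pool.Agent.Work.MP_db9399_cg.Interface2

/-! # Block A7: `Stmt_A` from A1, A34, A5, A6. -/

set_option autoImplicit false

namespace Pool.Agent.Work.MP_db9399_cg.helper39

open Finset Classical
open Pool.Agent.Work.MP_db9399_all (nb mis)
open Pool.Agent.Work.MP_db9399_cg

universe u

lemma ev_rpow (b : ℝ) (hb : 0 < b) : ∃ d0 : ℕ, ∀ d : ℕ, d0 ≤ d → (3 : ℝ) ≤ (d : ℝ) ^ b := by
  have h1 := ((tendsto_rpow_atTop hb).comp tendsto_natCast_atTop_atTop).eventually_ge_atTop (3 : ℝ)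
  rw [Filter.eventually_atTop] at h1
  exact h1

theorem stmt_A (hA1 : Stmt_A1.{u}) (hA34 : Stmt_A34.{u}) (hA5 : Stmt_A5.{u}) (hA6 : Stmt_A6.{u}) :
    Stmt_A.{u} := by
  intro a ρ0 MS ha ha1 hρ0 hρ1 hMS
  obtain ⟨n2, hn2⟩ := exists_nat_ge (max 16 (4 / ρ0))
  have hn16 : 16 ≤ n2 := by exact_mod_cast (le_max_left _ _).trans hn2
  have hnρ : 4 / ρ0 ≤ n2 := (le_max_right _ _).trans hn2
  have hnpos : (0 : ℝ) < n2 := by
    have : (16 : ℝ) ≤ n2 := by exact_mod_cast hn16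
    linarith
  have hρn : 4 / (n2 : ℝ) ≤ ρ0 := by
    rw [div_le_iff₀ hnpos]
    rw [div_le_iff₀ hρ0] at hnρ
    linarith
  obtain ⟨d1, H1⟩ := hA1 a n2 ha ha1 (by omega)
  obtain ⟨d5, m, H5⟩ := hA5 a n2 ha ha1 hn16
  obtain ⟨d34, H34⟩ := hA34 a m ha ha1
  obtain ⟨d6, H6⟩ := hA6 a MS ha ha1 hMS
  obtain ⟨de, He⟩ := ev_rpow (a / 6) (by positivity)
  refine ⟨max (max (max d1 d5) (max d34 d6)) (max de 1), ?_⟩
  intro V _ G d g hd hreg hg1 hg hex
  have hd1 : d1 ≤ d := le_trans (le_trans (le_trans (le_max_left _ _) (le_max_left _ _))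
    (le_max_left _ _)) hd
  have hd5 : d5 ≤ d := le_trans (le_trans (le_trans (le_max_right _ _) (le_max_left _ _))
    (le_max_left _ _)) hd
  have hd34 : d34 ≤ d := le_trans (le_trans (le_trans (le_max_left _ _) (le_max_right _ _))
    (le_max_left _ _)) hd
  have hd6 : d6 ≤ d := le_trans (le_trans (le_trans (le_max_right _ _) (le_max_right _ _))
    (le_max_left _ _)) hd
  have hde : de ≤ d := le_trans (le_trans (le_max_left _ _) (le_max_right _ _)) hd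
  have hd0 : 1 ≤ d := le_trans (le_trans (le_max_right _ _) (le_max_right _ _)) hd
  have hdR : (1 : ℝ) ≤ d := by exact_mod_cast hd0
  have hdpos : (0 : ℝ) < d := by linarith
  -- numbers
  have e6 := He d hde
  have e2 : (3 : ℝ) ≤ (d : ℝ) ^ (a / 2) :=
    e6.trans (Real.rpow_le_rpow_of_exponent_le hdR (by linarith))
  have p1 : (1 : ℝ) ≤ (d : ℝ) ^ (1 - a) := Real.one_le_rpow hdR (by linarith)
  have p2 : (1 : ℝ) ≤ (d : ℝ) ^ (1 - a / 2) := Real.one_le_rpow hdR (by linarith)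
  have s1 : (d : ℝ) ^ (1 - a / 2) = (d : ℝ) ^ (1 - a) * (d : ℝ) ^ (a / 2) := by
    rw [← Real.rpow_add hdpos]; congr 1; ring
  have s2 : (d : ℝ) ^ (1 - a / 3) = (d : ℝ) ^ (1 - a / 2) * (d : ℝ) ^ (a / 6) := by
    rw [← Real.rpow_add hdpos]; congr 1; ring
  set f : ℕ := ⌊(d : ℝ) ^ (1 - a / 2) / 2⌋₊ with hf
  have f1 : (f : ℝ) ≤ (d : ℝ) ^ (1 - a / 2) / 2 := Nat.floor_le (by positivity)
  have f2 : (d : ℝ) ^ (1 - a / 2) / 2 < f + 1 := Nat.lt_floor_add_one _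
  have t1 : (d : ℝ) ^ (1 - a) ≤ 2 * f := by nlinarith
  have t2 : (2 * f : ℝ) + 1 ≤ (d : ℝ) ^ (1 - a / 3) := by nlinarith
  have hfpos : 1 ≤ f := by
    by_contra h
    have : f = 0 := by omega
    rw [this] at t1
    simp only [Nat.cast_zero, mul_zero] at t1
    linarith
  set κ : ℝ := (2 * f + 1 / n2) / d with hκ
  have hn1 : 1 / (n2 : ℝ) ≤ 1 := by
    rw [div_le_one hnpos]
    have : (16 : ℝ) ≤ n2 := by exact_mod_cast hn16
    linarith
  have hn0 : 0 ≤ 1 / (n2 : ℝ) := by positivity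
  have hκd : κ * d = 2 * f + 1 / n2 := by rw [hκ]; field_simp
  have hk1 : (d : ℝ) ^ (-a) ≤ κ := by
    rw [hκ, le_div_iff₀ hdpos]
    have : (d : ℝ) ^ (-a) * d = (d : ℝ) ^ (1 - a) := by
      rw [show (1 - a) = -a + 1 by ring, Real.rpow_add hdpos, Real.rpow_one]
    rw [this]
    linarith
  have hk2 : κ ≤ (d : ℝ) ^ (-(a / 3)) := by
    rw [hκ, div_le_iff₀ hdpos]
    have : (d : ℝ) ^ (-(a / 3)) * d = (d : ℝ) ^ (1 - a / 3) := by
      rw [show (1 - a / 3) = -(a / 3) + 1 by ring, Real.rpow_add hdpos, Real.rpow_one]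
    rw [this]
    linarith
  -- the labels
  obtain ⟨K, M, hL⟩ := H1 G d hd1 hreg
  -- the graph of the edges not inside `K`
  let G1 : SimpleGraph V :=
    { Adj := fun v w => G.Adj v w ∧ ¬ (v ∈ K ∧ w ∈ K)
      symm := ⟨fun v w h => ⟨h.1.symm, fun h2 => h.2 ⟨h2.2, h2.1⟩⟩⟩
      loopless := ⟨fun v h => G.loopless.irrefl v h.1⟩ }
  have hG1 : ∀ v w, G1.Adj v w ↔ G.Adj v w ∧ ¬ (v ∈ K ∧ w ∈ K) := fun v w => Iff.rfl
  obtain ⟨θ, x1, h, cc, hE, hS⟩ := H5 G G1 d f κ K M hd5 hreg hL hG1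
    (by
      rw [hκd]
      have : (n2 : ℝ) ≠ 0 := hnpos.ne'
      field_simp) hk1 hk2
  obtain ⟨O, Z, o1, o2, z1, z2, cv, cp⟩ := H34 G G1 d κ θ x1 h cc hd34 hE
  obtain ⟨S, sG, sZ, s3, s4, s5, s6, s7, s8⟩ := hS O Z o1 o2 z1 z2 cv
  have hex2 := H6 G G1 S d f κ g (1 / n2) K M Z hd6 hreg hL hg1 hg hex hG1 z1 z2 sZ
    (by rw [hκd]; linarith) hfpos hk1 hk2 cp
  refine ⟨S, 2 * f, K, M true ∪ M false, ?_⟩
  have hc : ((2 * f : ℕ) : ℝ) = 2 * f := by push_cast; ring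
  constructor
  · intro v w hvw
    exact ((hG1 v w).1 (sG hvw)).1
  · rw [hc]; exact t1
  · rw [hc]; linarith
  · exact s3
  · exact s4
  · exact s5
  · intro v
    rw [hc]
    refine (s6 v).trans ?_
    apply mul_le_mul_of_nonneg_right hρn
    positivity
  · intro v hv w hw hvw
    exact ((hG1 v w).1 (sG hvw)).2 ⟨hv, hw⟩
  · intro v hv
    rw [hc]
    exact s7 v hv
  · intro v
    rw [hc]
    have := s8 v
    linarith
  · have e : ((2 * f + 1 : ℕ)) = 2 * f + 1 := rfl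
    exact_mod_cast hex2

end Pool.Agent.Work.MP_db9399_cg.helper39
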